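import Mathlib

/-!
# MP_39dc45_gt: the definitions of the statement

* `Data`: admissible data `(p, n, ρ, l, action on S^l)`; `D.Mfd = T^n ×_{ℤ/p} S^l`; `D.Gam = ℤ^n ⋊ ℤ/p`;
  `D.Cov = ℝ^n × S^l` with the action of `D.Gam`; `D.fixY = (T^n)^{ℤ/p} × L^l ⊆ D.Mfd`.
* `SplitsAlong n h Y`: `h` is homotopic to a map transverse to `Y` whose restriction to the preimage of
  `Y` is a homotopy equivalence.
* `D.IsSimple h`: the Whitehead torsion of `h` vanishes in `Wh (D.Gam)`; it is computed from equivariant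
  triangulations of the coverings.
-/

open scoped Topology
open Matrix

noncomputable section

namespace Pool.Agent.Lib.MP_39dc45_gt.SP

/-! ## The manifolds -/

/-- The cyclic group `ℤ/p`, written multiplicatively. -/
abbrev Cyc (p : ℕ) : Type := Multiplicative (ZMod p)

/-- The torus `T^n = ℝ^n/ℤ^n`. -/
abbrev Tor (n : ℕ) : Type := Fin n → UnitAddCircle

/-- An integral matrix acting on the torus. -/
def matAct {n : ℕ} (A : Matrix (Fin n) (Fin n) ℤ) (x : Tor n) : Tor n :=
  fun i => ∑ j, A i j • x j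

/-- An odd prime `p` and a homomorphism `ρ : ℤ/p → GL_n(ℤ)` such that `ℤ/p` acts freely on
`ℤ^n - {0}`. -/
structure Rep where
  p : ℕ
  prime : p.Prime
  odd : p ≠ 2
  n : ℕ
  rho : Cyc p →* GL (Fin n) ℤ
  rho_free : ∀ g, g ≠ 1 → ∀ v : Fin n → ℤ,
    ((rho g : GL (Fin n) ℤ) : Matrix (Fin n) (Fin n) ℤ) *ᵥ v = v → v = 0

namespace Rep
variable (D : Rep)

/-- The matrix `ρ(g)`. -/
def mat (g : Cyc D.p) : Matrix (Fin D.n) (Fin D.n) ℤ := (D.rho g : GL (Fin D.n) ℤ)

theorem mat_one : D.mat 1 = 1 := by simp [mat]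

theorem mat_mul (g h : Cyc D.p) : D.mat (g * h) = D.mat g * D.mat h := by simp [mat]

/-- The group `Γ = ℤ^n ⋊ ℤ/p`, with `(v, g) (w, h) = (v + ρ(g) w, g h)`. -/
@[ext] structure Gam where
  v : Fin D.n → ℤ
  g : Cyc D.p

instance : Mul D.Gam := ⟨fun a b => ⟨a.v + D.mat a.g *ᵥ b.v, a.g * b.g⟩⟩
instance : One D.Gam := ⟨⟨0, 1⟩⟩
instance : Inv D.Gam := ⟨fun a => ⟨-(D.mat a.g⁻¹ *ᵥ a.v), a.g⁻¹⟩⟩

@[simp] theorem mul_v (a b : D.Gam) : (a * b).v = a.v + D.mat a.g *ᵥ b.v := rfl
@[simp] theorem mul_g (a b : D.Gam) : (a * b).g = a.g * b.g := rfl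
@[simp] theorem one_v : (1 : D.Gam).v = 0 := rfl
@[simp] theorem one_g : (1 : D.Gam).g = 1 := rfl
@[simp] theorem inv_v (a : D.Gam) : (a⁻¹).v = -(D.mat a.g⁻¹ *ᵥ a.v) := rfl
@[simp] theorem inv_g (a : D.Gam) : (a⁻¹).g = a.g⁻¹ := rfl

instance : Group D.Gam where
  mul_assoc a b c := by
    ext1
    · simp [Matrix.mulVec_add, mat_mul, add_assoc]
    · simp [mul_assoc]
  one_mul a := by ext1 <;> simp [mat_one]
  mul_one a := by ext1 <;> simp
  inv_mul_cancel a := by ext1 <;> simp

end Rep

/-- The sphere `S^l`. -/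
def Sphere (l : ℕ) : Type := Metric.sphere (0 : EuclideanSpace ℝ (Fin (l + 1))) 1

instance instTopSphere (l : ℕ) : TopologicalSpace (Sphere l) := instTopologicalSpaceSubtype

/-- Admissible data: in addition an odd `l ≥ 3` and a free action of `ℤ/p` on `S^l`. -/
structure Data extends Rep where
  l : ℕ
  three_le : 3 ≤ l
  odd_l : Odd l
  act : Cyc p → Sphere l → Sphere l
  act_one : ∀ s, act 1 s = s
  act_mul : ∀ g h s, act (g * h) s = act g (act h s)
  act_cont : ∀ g, Continuous (act g)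
  act_free : ∀ g, g ≠ 1 → ∀ s, act g s ≠ s

namespace Data
variable (D : Data)

/-- The orbit relation of the diagonal action of `ℤ/p` on `T^n × S^l`. -/
def rel (a b : Tor D.n × Sphere D.l) : Prop :=
  ∃ g : Cyc D.p, matAct (D.mat g) a.1 = b.1 ∧ D.act g a.2 = b.2

/-- The manifold `M = T^n ×_{ℤ/p} S^l`. -/
def Mfd : Type := Quot D.rel

instance instTopMfd : TopologicalSpace D.Mfd :=
  (instTopologicalSpaceQuot : TopologicalSpace (Quot D.rel))

/-- The submanifold `Y = (T^n)^{ℤ/p} × L^l`: the image of the `{x} × S^l`, `x` a fixed point. -/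
def fixY : Set D.Mfd :=
  {m | ∃ (x : Tor D.n) (s : Sphere D.l), (∀ g, matAct (D.mat g) x = x) ∧ m = Quot.mk D.rel (x, s)}

/-- The universal covering `ℝ^n × S^l` of `M`. -/
def Cov : Type := (Fin D.n → ℝ) × Sphere D.l

instance instTopCov : TopologicalSpace D.Cov :=
  (instTopologicalSpaceProd : TopologicalSpace ((Fin D.n → ℝ) × Sphere D.l))

/-- The action of `Γ` on `ℝ^n × S^l`: `(v, g) (x, s) = (ρ(g) x + v, g s)`. -/
def covAct (a : D.Gam) (x : D.Cov) : D.Cov :=
  (fun i => (∑ j, (D.mat a.g i j : ℝ) * x.1 j) + (a.v i : ℝ), D.act a.g x.2)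

theorem covAct_one (x : D.Cov) : D.covAct 1 x = x := by
  apply Prod.ext
  · funext i
    change (∑ j, ((D.mat 1 i j : ℤ) : ℝ) * x.1 j) + (((0 : Fin D.n → ℤ) i : ℤ) : ℝ) = x.1 i
    rw [Rep.mat_one]
    simp [Matrix.one_apply]
  · exact D.act_one _

theorem covAct_mul (a b : D.Gam) (x : D.Cov) : D.covAct (a * b) x = D.covAct a (D.covAct b x) := by
  apply Prod.ext
  · funext i
    change (∑ j, ((D.mat (a.g * b.g) i j : ℤ) : ℝ) * x.1 j)
        + (((a.v + D.mat a.g *ᵥ b.v) i : ℤ) : ℝ)
      = (∑ k, ((D.mat a.g i k : ℤ) : ℝ) * ((∑ j, ((D.mat b.g k j : ℤ) : ℝ) * x.1 j)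
        + ((b.v k : ℤ) : ℝ))) + ((a.v i : ℤ) : ℝ)
    rw [Rep.mat_mul]
    simp only [Matrix.mul_apply, Pi.add_apply, Matrix.mulVec, dotProduct, Int.cast_add,
      Int.cast_sum, Int.cast_mul, mul_add, Finset.sum_add_distrib, Finset.mul_sum, Finset.sum_mul]
    rw [Finset.sum_comm]
    have h : ∀ k j : Fin D.n, ((D.mat a.g i k : ℤ) : ℝ) * ((D.mat b.g k j : ℤ) : ℝ) * x.1 j
        = ((D.mat a.g i k : ℤ) : ℝ) * (((D.mat b.g k j : ℤ) : ℝ) * x.1 j) :=
      fun k j => mul_assoc _ _ _
    simp only [h]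
    ring
  · exact D.act_mul _ _ _

instance instActCov : MulAction D.Gam D.Cov where
  smul := D.covAct
  one_smul := D.covAct_one
  mul_smul := D.covAct_mul

/-- The projection `ℝ^n × S^l → M`. -/
def proj (x : D.Cov) : D.Mfd := Quot.mk D.rel (fun i => ((x.1 i : ℝ) : UnitAddCircle), x.2)

end Data

/-! ## Closed manifolds, homotopy equivalences, transversality, splitting -/

/-- A closed topological manifold of dimension `m`. -/
def IsClosedManifold (m : ℕ) (N : Type) [TopologicalSpace N] : Prop :=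
  CompactSpace N ∧ T2Space N ∧
    ∀ x : N, ∃ e : OpenPartialHomeomorph N (EuclideanSpace ℝ (Fin m)), x ∈ e.source

/-- `h` is a homotopy equivalence. -/
def IsHtpyEquiv {X Y : Type} [TopologicalSpace X] [TopologicalSpace Y] (h : C(X, Y)) : Prop :=
  ∃ k : C(Y, X), (k.comp h).Homotopic (ContinuousMap.id X) ∧
    (h.comp k).Homotopic (ContinuousMap.id Y)

/-- `U` is an open neighbourhood of `Y` in `M` and `r : U → Y` is a fibre bundle with fibre `ℝ^n` and
with zero section `Y`. -/
structure IsNormalBundle (n : ℕ) {M : Type} [TopologicalSpace M] (Y U : Set M) (r : M → M) : Prop where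
  isOpen : IsOpen U
  subset : Y ⊆ U
  cont : ContinuousOn r U
  mapsTo : ∀ x ∈ U, r x ∈ Y
  retract : ∀ y ∈ Y, r y = y
  triv : ∀ y ∈ Y, ∃ O : Set M, IsOpen O ∧ y ∈ O ∧
    ∃ e : {x : M // x ∈ U ∧ r x ∈ O} ≃ₜ {x : M // x ∈ Y ∧ x ∈ O} × (Fin n → ℝ),
      ∀ x, ((e x).1 : M) = r x ∧ ((x : M) ∈ Y → (e x).2 = 0)

/-- `g : N → M` is transverse to `Y`, with normal fibre `ℝ^n`: there are normal bundles of `Y` and of
`g⁻¹(Y)` such that `g` is a bundle map between them, bijective (hence homeomorphic) on every fibre. -/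
def IsTransverse (n : ℕ) {N M : Type} [TopologicalSpace N] [TopologicalSpace M] (g : C(N, M))
    (Y : Set M) : Prop :=
  ∃ (U : Set M) (r : M → M) (U' : Set N) (r' : N → N),
    IsNormalBundle n Y U r ∧ IsNormalBundle n (g ⁻¹' Y) U' r' ∧
    (∀ x ∈ U', g x ∈ U ∧ r (g x) = g (r' x)) ∧
    ∀ y ∈ g ⁻¹' Y, Set.BijOn g {x | x ∈ U' ∧ r' x = y} {x | x ∈ U ∧ r x = g y}

/-- The restriction of `g` to the preimage of `Y`. -/
def restrictTo {N M : Type} [TopologicalSpace N] [TopologicalSpace M] (g : C(N, M))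
    (Y : Set M) : C(g ⁻¹' Y, Y) :=
  ⟨fun x => ⟨g x, x.2⟩, by fun_prop⟩

/-- `h : N → M` splits along `Y` (a submanifold of codimension `n`). -/
def SplitsAlong (n : ℕ) {N M : Type} [TopologicalSpace N] [TopologicalSpace M] (h : C(N, M))
    (Y : Set M) : Prop :=
  ∃ g : C(N, M), h.Homotopic g ∧ IsTransverse n g Y ∧ IsHtpyEquiv (restrictTo g Y)

/-! ## Triangulations by directed flag complexes

A relation `R` on `V` with `R a b → ¬ R b a` defines an ordered simplicial complex with vertex set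
`V`: its simplices are the nonempty lists `[v₀, …, v_k]` with `R v_i v_j` for all `i < j`. (For a
strict partial order this is the order complex; so every barycentric subdivision is of this form.) -/

/-- `y` is a point of the geometric realisation of the complex of `R` (barycentric coordinates). -/
def IsPt {V : Type} (R : V → V → Prop) (y : V → ℝ) : Prop :=
  (∀ v, 0 ≤ y v) ∧ ∃ l : List V, l.Pairwise R ∧ (∀ v, y v ≠ 0 ↔ v ∈ l) ∧ (l.map y).sum = 1

/-- `b` are the barycentric coordinates of a `Γ`-equivariant triangulation of `X` by the complex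
of `R`. -/
structure IsTriang (Γ : Type) [Group Γ] {X : Type} [TopologicalSpace X] [MulAction Γ X]
    {V : Type} [MulAction Γ V] (R : V → V → Prop) (b : X → V → ℝ) : Prop where
  asymm : ∀ v w, R v w → ¬ R w v
  smul_rel : ∀ (γ : Γ) v w, R v w → R (γ • v) (γ • w)
  cont : ∀ v, Continuous fun x => b x v
  locFin : LocallyFinite fun v => {x | b x v ≠ 0}
  pt : ∀ x, IsPt R (b x)
  bij : ∀ y, IsPt R y → ∃! x, b x = y
  cpt : ∀ l : List V, l.Pairwise R → IsCompact {x | ∀ v, b x v ≠ 0 → v ∈ l}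
  smul_eq : ∀ (γ : Γ) x v, b (γ • x) (γ • v) = b x v

/-! ## The chain complex of a simplicial map (algebraic mapping cone) -/

section chain
variable {V W : Type}

/-- The boundary `Σ (-1)^i [v₀, …, v̂_i, …, v_k]` of an ordered simplex. -/
def bd (l : List V) : List V →₀ ℤ :=
  if l.length ≤ 1 then 0
  else ∑ i ∈ Finset.range l.length, Finsupp.single (l.eraseIdx i) ((-1 : ℤ) ^ i)

open Classical in
/-- The image of an ordered simplex under a simplicial map `f` (zero if degenerate). -/
def push (R : W → W → Prop) (f : V → W) (l : List V) : List W →₀ ℤ :=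
  if (l.map f).Pairwise R then Finsupp.single (l.map f) 1 else 0

/-- The differential of the mapping cone of `f`: a cell is a simplex of the target (`inl`) or a
simplex of the source with degree raised by one (`inr`). -/
def coneD (R : W → W → Prop) (f : V → W) : List W ⊕ List V → (List W ⊕ List V →₀ ℤ)
  | Sum.inl l => (bd l).mapDomain Sum.inl
  | Sum.inr l => (push R f l).mapDomain Sum.inl - (bd l).mapDomain Sum.inr

/-- The degree of a cell (raised by one). -/
def cdeg : List W ⊕ List V → ℕ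
  | Sum.inl l => l.length
  | Sum.inr l => l.length + 1

/-- The cells of the mapping cone. -/
def IsCell (RV : V → V → Prop) (RW : W → W → Prop) : List W ⊕ List V → Prop
  | Sum.inl l => l ≠ [] ∧ l.Pairwise RW
  | Sum.inr l => l ≠ [] ∧ l.Pairwise RV

/-- The action of `γ` on cells. -/
def cellMap {Γ : Type} [Group Γ] [MulAction Γ V] [MulAction Γ W] (γ : Γ) :
    List W ⊕ List V → List W ⊕ List V :=
  Sum.map (List.map (γ • ·)) (List.map (γ • ·))

/-- `r` is a system of representatives of the cells modulo the (free) action of `Γ`. -/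
def IsReps (Γ : Type) [Group Γ] [MulAction Γ V] [MulAction Γ W] (RV : V → V → Prop)
    (RW : W → W → Prop) {J : Type} (r : J → List W ⊕ List V) : Prop :=
  (∀ j, IsCell RV RW (r j)) ∧
    ∀ c, IsCell RV RW c → ∃! p : Γ × J, cellMap p.1 (r p.2) = c

/-- The matrix over `ℤ[Γ]` of the differential: `d (r j) = Σ_{j'} (coneMat j j') · r j'`. -/
def coneMat (Γ : Type) [Group Γ] [MulAction Γ V] [MulAction Γ W] (RW : W → W → Prop) (f : V → W)
    {J : Type} (r : J → List W ⊕ List V) : Matrix J J (MonoidAlgebra ℤ Γ) :=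
  fun j j' => ∑ᶠ γ : Γ, MonoidAlgebra.single γ (coneD RW f (r j) (cellMap γ (r j')))

end chain

/-! ## Whitehead torsion -/

/-- The square matrix `A` over `ℤ[Γ]` is trivial in the Whitehead group
`Wh(Γ) = GL(ℤ[Γ])/⟨E(ℤ[Γ]), ±Γ⟩`: after stabilisation it is a product of elementary matrices and
of diagonal matrices `diag(1, …, ±γ, …, 1)`. -/
def WhTrivial (Γ : Type) [Group Γ] {k : Type} [Fintype k] [DecidableEq k]
    (A : Matrix k k (MonoidAlgebra ℤ Γ)) : Prop :=
  ∃ m : ℕ, Matrix.fromBlocks A 0 0 (1 : Matrix (Fin m) (Fin m) (MonoidAlgebra ℤ Γ)) ∈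
    Submonoid.closure
      ({E : Matrix (k ⊕ Fin m) (k ⊕ Fin m) (MonoidAlgebra ℤ Γ) |
          ∃ i j c, i ≠ j ∧ E = 1 + Matrix.single i j c} ∪
        {E | ∃ (i : k ⊕ Fin m) (γ : Γ) (ε : ℤ), (ε = 1 ∨ ε = -1) ∧
          E = Matrix.diagonal (Function.update 1 i (MonoidAlgebra.single γ ε))})

/-- The Whitehead torsion of the simplicial map `f` (a simplicial map of free `Γ`-complexes) is
trivial: there is a contraction `S` of the mapping cone, with matrix in the basis `r`, such that
`d + S` from odd to even degrees is trivial in `Wh(Γ)`. -/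
def TorsionTrivial (Γ : Type) [Group Γ] {V W : Type} [MulAction Γ V] [MulAction Γ W]
    (RW : W → W → Prop) (f : V → W) {J : Type} [Fintype J] [DecidableEq J]
    (r : J → List W ⊕ List V) : Prop :=
  ∃ S : Matrix J J (MonoidAlgebra ℤ Γ),
    (∀ i j, S i j ≠ 0 → cdeg (r j) = cdeg (r i) + 1) ∧
    coneMat Γ RW f r * S + S * coneMat Γ RW f r = 1 ∧
    ∃ e : {j // Odd (cdeg (r j))} ≃ {j // ¬ Odd (cdeg (r j))},
      WhTrivial Γ (Matrix.of fun i j => (coneMat Γ RW f r + S) i.1 (e j).1)

/-- The equivariant simplicial map `f` is an approximation of `ht : X → Y`: its realisation is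
homotopic to `ht`, through equivariant maps. -/
structure IsApprox (Γ : Type) [Group Γ] {X Y : Type} [TopologicalSpace X] [TopologicalSpace Y]
    [MulAction Γ X] [MulAction Γ Y] {V W : Type} [MulAction Γ V] [MulAction Γ W]
    (RV : V → V → Prop) (RW : W → W → Prop) (bV : X → V → ℝ) (bW : Y → W → ℝ) (ht : C(X, Y))
    (f : V → W) : Prop where
  simp : ∀ v v', RV v v' → f v = f v' ∨ RW (f v) (f v')
  equi : ∀ (γ : Γ) v, f (γ • v) = γ • f v
  htpy : ∃ H : C(X × unitInterval, Y), (∀ x w, bW (H (x, 0)) w = ∑ᶠ v ∈ f ⁻¹' {w}, bV x v) ∧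
    (∀ x, H (x, 1) = ht x) ∧ ∀ (γ : Γ) x t, H (γ • x, t) = γ • H (x, t)

namespace Data
variable (D : Data)

/-- `q : X → N` is the covering with group `Γ` induced by `h : N → M` from the universal covering
`D.Cov → M`, and `ht : X → D.Cov` is the equivariant map covering `h`. -/
structure IsLift {N : Type} [TopologicalSpace N] (h : C(N, D.Mfd)) {X : Type} [TopologicalSpace X]
    [MulAction D.Gam X] (q : X → N) (ht : C(X, D.Cov)) : Prop where
  cov : IsQuotientCoveringMap q D.Gam
  equi : ∀ (γ : D.Gam) x, ht (γ • x) = γ • ht x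
  lift : ∀ x, D.proj (ht x) = h (q x)

/-- The homotopy equivalence `h : N → M` is simple: for the covering `X → N` with group `Γ` induced
by `h` from the universal covering of `M` and the map `ht : X → D.Cov` covering `h`, for all
equivariant triangulations of `X` and of `D.Cov` and all equivariant simplicial approximations `f` of
`ht`, the Whitehead torsion of `f` in `Wh(Γ)` is trivial. (By the topological invariance of Whitehead
torsion it does not depend on these choices. The statement of the hand-in is that `h` is not simple: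
for one concrete equivariant triangulation the torsion is not trivial.) -/
def IsSimple {N : Type} [TopologicalSpace N] (h : C(N, D.Mfd)) : Prop :=
  ∀ (X : Type) [TopologicalSpace X] [MulAction D.Gam X] (q : X → N) (ht : C(X, D.Cov)),
    D.IsLift h q ht →
  ∀ (V W : Type) [MulAction D.Gam V] [MulAction D.Gam W] (RV : V → V → Prop) (RW : W → W → Prop)
    (bV : X → V → ℝ) (bW : D.Cov → W → ℝ), IsTriang D.Gam RV bV → IsTriang D.Gam RW bW →
  ∀ f : V → W, IsApprox D.Gam RV RW bV bW ht f →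
  ∀ (J : Type) [Fintype J] [DecidableEq J] (r : J → List W ⊕ List V),
    IsReps D.Gam RV RW r → TorsionTrivial D.Gam RW f r

end Data

end Pool.Agent.Lib.MP_39dc45_gt.SP
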